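import Pool.Agent.W630.LT.Stubs

/-!
# Two embeddings of the torus with the same image
-/

open scoped ContDiff Topology
open Set

namespace Pool.Agent.W368.LT

open Pool.Agent.W630.LT

section

variable {ι : Type} [Fintype ι]

/-- the lattice of integer vectors -/
def lat (ι : Type) : AddSubgroup (ι → ℝ) where
  carrier := {x | ∀ i, ∃ m : ℤ, x i = m}
  add_mem' := by
    intro x y hx hy i
    obtain ⟨a, ha⟩ := hx i
    obtain ⟨b, hb⟩ := hy i
    exact ⟨a + b, by rw [Pi.add_apply, ha, hb]; push_cast; ring⟩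
  zero_mem' := fun i => ⟨0, by simp⟩
  neg_mem' := by
    intro x hx i
    obtain ⟨a, ha⟩ := hx i
    exact ⟨-a, by rw [Pi.neg_apply, ha]; push_cast; ring⟩

variable {V : Type} [NormedAddCommGroup V] [NormedSpace ℝ V] {f : (ι → ℝ) → V}

theorem eq_iff_orbit (hf : Emb f) {x y : ι → ℝ} :
    f x = f y ↔ x ∈ AddAction.orbit (lat ι) y := by
  rw [hf.eq_iff]
  constructor
  · rintro ⟨m, hm⟩
    refine ⟨⟨x - y, fun i => ⟨-m i, ?_⟩⟩, ?_⟩
    · rw [Pi.sub_apply, hm i]
      push_cast
      ring
    · change (x - y) + y = x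
      abel
  · rintro ⟨⟨g, hg⟩, hgy⟩
    have hg' : ∀ i, ∃ m : ℤ, g i = m := hg
    choose m hm using hg'
    refine ⟨fun i => -m i, fun i => ?_⟩
    have h1 : x = g + y := hgy.symm
    rw [h1, Pi.add_apply, hm i]
    push_cast
    ring

theorem quot_covering (hf : Emb f) :
    IsAddQuotientCoveringMap (rangeFactorization f) (lat ι) where
  toIsQuotientMap := by
    have hc : Continuous (rangeFactorization f) := hf.smooth.continuous.subtype_mk _
    rw [Topology.isQuotientMap_iff_isClosed]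
    refine ⟨rangeFactorization_surjective, fun s => ⟨fun hs => hs.preimage hc, fun hs => ?_⟩⟩
    have h1 : s = rangeFactorization f '' (rangeFactorization f ⁻¹' s ∩ Icc 0 1) := by
      ext z
      constructor
      · intro hz
        obtain ⟨x, rfl⟩ := rangeFactorization_surjective z
        have h2 : rangeFactorization f (fun i => Int.fract (x i)) = rangeFactorization f x := by
          apply Subtype.ext
          change f _ = f _
          rw [hf.eq_iff]
          exact ⟨fun i => ⌊x i⌋, fun i => (Int.fract_add_floor (x i)).symm⟩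
        refine ⟨fun i => Int.fract (x i), ⟨?_, ?_⟩, h2⟩
        · rw [mem_preimage, h2]
          exact hz
        · rw [mem_Icc, Pi.le_def, Pi.le_def]
          exact ⟨fun i => Int.fract_nonneg _, fun i => (Int.fract_lt_one _).le⟩
      · rintro ⟨x, ⟨hx, _⟩, rfl⟩
        exact hx
    rw [h1]
    exact ((isCompact_Icc.inter_left hs).image hc).isClosed
  toContinuousConstVAdd := ⟨fun g => by
    change Continuous fun x : ι → ℝ => (g : ι → ℝ) + x
    fun_prop⟩
  apply_eq_iff_mem_orbit := by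
    intro x y
    rw [← eq_iff_orbit hf]
    exact Subtype.ext_iff
  disjoint := by
    intro e
    refine ⟨Metric.ball e (1 / 3), Metric.ball_mem_nhds e (by norm_num), ?_⟩
    rintro ⟨g, hg⟩ ⟨u, ⟨v, hv, hvu⟩, hu⟩
    apply Subtype.ext
    change g = 0
    have h1 : u = g + v := hvu.symm
    ext i
    obtain ⟨m, hm⟩ := hg i
    rw [Pi.zero_apply, hm]
    have h2 : |u i - e i| < 1 / 3 := by
      have := (dist_pi_lt_iff (by norm_num)).1 (Metric.mem_ball.1 hu) i
      rwa [Real.dist_eq] at this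
    have h3 : |v i - e i| < 1 / 3 := by
      have := (dist_pi_lt_iff (by norm_num)).1 (Metric.mem_ball.1 hv) i
      rwa [Real.dist_eq] at this
    have h4 : u i = m + v i := by rw [h1, Pi.add_apply, hm]
    rw [h4] at h2
    rw [abs_lt] at h2 h3
    have h5 : (m : ℝ) < 1 := by linarith [h2.2, h3.1]
    have h6 : (-1 : ℝ) < m := by linarith [h2.1, h3.2]
    have h7 : m < 1 := by exact_mod_cast h5
    have h8 : -1 < m := by exact_mod_cast h6
    have h9 : m = 0 := by omega
    rw [h9]
    simp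

end

theorem lift : S_LIFT := by
  intro ι V _ _ _ _ f F hf hF hr
  have hcov : IsCoveringMap (rangeFactorization f) := (quot_covering hf).isCoveringMap
  have hFr : ∀ x, F x ∈ range f := fun x => by
    rw [hr]
    exact mem_range_self x
  obtain ⟨y0, hy0⟩ := hFr 0
  let F' : C(ι → ℝ, range f) := ⟨fun x => ⟨F x, hFr x⟩, hF.smooth.continuous.subtype_mk _⟩
  obtain ⟨ψ, ⟨_, hψ⟩, _⟩ := hcov.existsUnique_continuousMap_lifts F' 0 y0 (Subtype.ext hy0)
  have hψ' : ∀ x, f (ψ x) = F x := fun x => congrArg Subtype.val (congrFun hψ x)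
  refine ⟨ψ, ?_, hψ'⟩
  rw [contDiff_iff_contDiffAt]
  intro x0
  set y := ψ x0 with hy
  -- a linear left inverse of the differential
  obtain ⟨A, hA⟩ := LinearMap.exists_leftInverse_of_injective
    ((fderiv ℝ f y : (ι → ℝ) →L[ℝ] V) : (ι → ℝ) →ₗ[ℝ] V)
    (LinearMap.ker_eq_bot.2 (hf.immersion y))
  set A' : V →L[ℝ] (ι → ℝ) := A.toContinuousLinearMap with hA'
  have hg : ContDiffAt ℝ ∞ (fun z => A' (f z)) y := (A'.contDiff.comp hf.smooth).contDiffAt
  have hgd : HasFDerivAt (fun z => A' (f z))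
      ((ContinuousLinearEquiv.refl ℝ (ι → ℝ) : (ι → ℝ) ≃L[ℝ] (ι → ℝ)) : (ι → ℝ) →L[ℝ] (ι → ℝ)) y := by
    have h1 := A'.hasFDerivAt.comp y
      (hf.smooth.differentiable (by simp) y).hasFDerivAt
    have h2 : A'.comp (fderiv ℝ f y) =
        ((ContinuousLinearEquiv.refl ℝ (ι → ℝ) : (ι → ℝ) ≃L[ℝ] (ι → ℝ)) :
          (ι → ℝ) →L[ℝ] (ι → ℝ)) := by
      ext1 v
      exact LinearMap.congr_fun hA v
    rw [← h2]
    exact h1
  have hn : (∞ : WithTop ℕ∞) ≠ 0 := by simp
  have hinv := hg.to_localInverse hgd hn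
  have hev : ∀ᶠ z in 𝓝 y, hg.localInverse hgd hn (A' (f z)) = z :=
    (hg.hasStrictFDerivAt' hgd hn).eventually_left_inverse
  have hev2 : ∀ᶠ x in 𝓝 x0, hg.localInverse hgd hn (A' (F x)) = ψ x := by
    have := (ψ.continuous.tendsto x0).eventually hev
    filter_upwards [this] with x hx
    rw [hψ'] at hx
    exact hx
  have hcomp : ContDiffAt ℝ ∞ (fun x => hg.localInverse hgd hn (A' (F x))) x0 := by
    have h1 : ContDiffAt ℝ ∞ (fun x => A' (F x)) x0 := (A'.contDiff.comp hF.smooth).contDiffAt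
    have h2 : A' (F x0) = A' (f y) := by rw [hy, hψ']
    refine ContDiffAt.comp x0 ?_ h1
    rw [h2]
    exact hinv
  exact hcomp.congr_of_eventuallyEq (hev2.mono fun x hx => hx.symm)

end Pool.Agent.W368.LT
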